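import Pool.Agent.Helper539_BiInv.Criterion

set_option autoImplicit false

/-!
# A reformulation of Question 1 without metrics
-/

namespace Pool.Agent.Results.MP_123441_al.Reformulation

open Pool.Agent.Helper539_BiInv

/-- From approximability of all metrics to short factorisations. -/
theorem short_of_approx {n : ℕ}
    (h : ∀ ρ : FreeGroup (Fin n) → FreeGroup (Fin n) → ℝ, IsBiInvMetric ρ → FinitelyApproximable ρ)
    (l : List (FreeGroup (Fin n))) (a : FreeGroup (Fin n)) (hcl : InClosure l a)
    (w : FreeGroup (Fin n) → ℝ) (hw : ∀ x, 0 < w x) :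
    ∃ m c : List (FreeGroup (Fin n)), (∀ b ∈ m, b ∈ l) ∧
      List.Forall₂ (fun b x => IsConj b x ∨ IsConj b⁻¹ x) m c ∧ c.prod = a ∧
      (m.map w).sum ≤ (l.map w).sum := by
  classical
  -- a lower bound of the weights
  obtain ⟨δ, hδ0, hδ⟩ : ∃ δ : ℝ, 0 < δ ∧ ∀ b ∈ l, δ ≤ w b := by
    clear hcl
    induction l with
    | nil => exact ⟨1, one_pos, by simp⟩
    | cons b l ih =>
      obtain ⟨δ, h1, h2⟩ := ih
      refine ⟨min δ (w b), lt_min h1 (hw b), ?_⟩
      intro x hx
      rcases List.mem_cons.1 hx with rfl | hx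
      · exact min_le_right _ _
      · exact (min_le_left _ _).trans (h2 x hx)
  set T : ℝ := (l.map w).sum with hT
  have hT0 : 0 ≤ T := List.sum_nonneg (by
    intro x hx
    obtain ⟨b, -, rfl⟩ := List.mem_map.1 hx
    exact (hw b).le)
  obtain ⟨K, hK⟩ := exists_nat_gt ((T + 1) / δ)
  have hK' : T + 1 < K * δ := (div_lt_iff₀ hδ0).1 hK
  -- the finite set of costs greater than `T`
  have hfin : {m : List (FreeGroup (Fin n)) | m.length ≤ K ∧ ∀ b ∈ m, b ∈ l.toFinset}.Finite :=
    finite_lists _ _
  obtain ⟨η, hη0, hη1, hη⟩ : ∃ η : ℝ, 0 < η ∧ η ≤ 1 ∧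
      ∀ m ∈ hfin.toFinset, T < (m.map w).sum → T + η ≤ (m.map w).sum := by
    have key : ∀ s : Finset (List (FreeGroup (Fin n))), ∃ η : ℝ, 0 < η ∧ η ≤ 1 ∧
        ∀ m ∈ s, T < (m.map w).sum → T + η ≤ (m.map w).sum := by
      intro s
      induction s using Finset.induction_on with
      | empty => exact ⟨1, one_pos, le_rfl, by simp⟩
      | insert m s _ ih =>
        obtain ⟨η, h1, h2, h3⟩ := ih
        by_cases hm : T < (m.map w).sum
        · refine ⟨min η ((m.map w).sum - T), lt_min h1 (by linarith),
            (min_le_left _ _).trans h2, ?_⟩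
          intro m' hm' hlt
          rcases Finset.mem_insert.1 hm' with rfl | hm'
          · linarith [min_le_right η ((m'.map w).sum - T)]
          · linarith [min_le_left η ((m.map w).sum - T), h3 m' hm' hlt]
        · refine ⟨η, h1, h2, ?_⟩
          intro m' hm' hlt
          rcases Finset.mem_insert.1 hm' with rfl | hm'
          · exact absurd hlt hm
          · exact h3 m' hm' hlt
    exact key _
  let R : FreeGroup (Fin n) → ℝ → Prop := fun x r =>
    ∃ b ∈ l, (IsConj b x ∨ IsConj b⁻¹ x) ∧ r = w b
  have hgood : Good R δ (T + 1) := by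
    refine ⟨hδ0, by linarith, ?_, ?_, ?_⟩
    · rintro x r ⟨b, hb, -, rfl⟩
      exact hδ b hb
    · rintro x r ⟨b, hb, hx, rfl⟩
      refine ⟨b, hb, ?_, rfl⟩
      rcases hx with hx | hx
      · obtain ⟨g, rfl⟩ := isConj_iff.1 hx
        exact Or.inr (isConj_iff.2 ⟨g, by group⟩)
      · obtain ⟨g, rfl⟩ := isConj_iff.1 hx
        exact Or.inl (isConj_iff.2 ⟨g, by group⟩)
    · rintro g x r ⟨b, hb, hx, rfl⟩
      refine ⟨b, hb, ?_, rfl⟩
      rcases hx with hx | hx
      · exact Or.inl (hx.trans (isConj_iff.2 ⟨g, rfl⟩))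
      · exact Or.inr (hx.trans (isConj_iff.2 ⟨g, rfl⟩))
  have hle := (approx_iff hgood.isBiInvMetric).1 (h _ hgood.isBiInvMetric) l a hcl
  simp only [inv_one, mul_one] at hle
  have hle2 : (l.map fun b => costLen R (T + 1) b).sum ≤ T := by
    rw [hT]
    have : ∀ m : List (FreeGroup (Fin n)), (∀ b ∈ m, b ∈ l) →
        (m.map fun b => costLen R (T + 1) b).sum ≤ (m.map w).sum := by
      intro m
      induction m with
      | nil => intro _; simp
      | cons b m ih =>
        intro hm
        have h1 : costLen R (T + 1) b ≤ w b :=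
          hgood.len_le_cost ⟨b, hm b List.mem_cons_self, Or.inl (IsConj.refl _), rfl⟩
        have h2 := ih fun x hx => hm x (List.mem_cons_of_mem _ hx)
        simp only [List.map_cons, List.sum_cons]
        linarith
    exact this l fun _ h => h
  have hlt : costLen R (T + 1) a < T + η := by linarith
  rcases Good.exists_lt hlt with h1 | ⟨k, hk, hka, hsum⟩
  · linarith
  have key : ∀ k : List (FreeGroup (Fin n) × ℝ), (∀ p ∈ k, R p.1 p.2) →
      ∃ m : List (FreeGroup (Fin n)), (∀ b ∈ m, b ∈ l) ∧
        List.Forall₂ (fun b x => IsConj b x ∨ IsConj b⁻¹ x) m (k.map Prod.fst) ∧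
        m.length = k.length ∧ (k.map Prod.snd).sum = (m.map w).sum := by
    intro k
    induction k with
    | nil => intro _; exact ⟨[], by simp, List.Forall₂.nil, rfl, rfl⟩
    | cons p k ih =>
      intro hk
      obtain ⟨m, h1, h2, h3, h4⟩ := ih fun x hx => hk x (List.mem_cons_of_mem _ hx)
      obtain ⟨b, hb, hbx, hr⟩ := hk p List.mem_cons_self
      refine ⟨b :: m, ?_, List.Forall₂.cons hbx h2, by simp [h3], ?_⟩
      · intro x hx
        rcases List.mem_cons.1 hx with rfl | hx
        · exact hb
        · exact h1 x hx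
      · rw [List.map_cons, List.sum_cons, h4, hr, List.map_cons, List.sum_cons]
  obtain ⟨m, h1, h2, h3, h4⟩ := key k hk
  refine ⟨m, _, h1, h2, hka, ?_⟩
  have hlen : m.length ≤ K := by
    have h6 := sum_nonneg_of hgood k hk
    rw [← h3] at h6
    have h7 : (m.length : ℝ) * δ < K * δ := by linarith
    have h8 : (m.length : ℝ) < K := lt_of_mul_lt_mul_right h7 hδ0.le
    exact_mod_cast h8.le
  by_contra hcon
  push Not at hcon
  have := hη m (hfin.mem_toFinset.2 ⟨hlen, fun b hb => List.mem_toFinset.2 (h1 b hb)⟩) hcon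
  linarith

/-- **Question 1 without metrics.** The question has a positive answer (every bi-invariant metric
on every free group of finite rank is finitely approximable) if and only if the following holds
in all free groups of finite rank. Whenever `a` lies in the profinite closure of a product
`[b₁]⋯[bₖ]` of conjugacy classes and positive weights are given, `a` is a product of conjugates of
the `bᵢ` and their inverses, repetitions allowed, of total weight at most the total weight of
`b₁, …, bₖ`. -/
theorem result :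
    (∀ (n : ℕ) (ρ : FreeGroup (Fin n) → FreeGroup (Fin n) → ℝ), IsBiInvMetric ρ →
      FinitelyApproximable ρ) ↔
    ∀ (n : ℕ) (l : List (FreeGroup (Fin n))) (a : FreeGroup (Fin n)), InClosure l a →
      ∀ w : FreeGroup (Fin n) → ℝ, (∀ x, 0 < w x) →
        ∃ m c : List (FreeGroup (Fin n)), (∀ b ∈ m, b ∈ l) ∧
          List.Forall₂ (fun b x => IsConj b x ∨ IsConj b⁻¹ x) m c ∧ c.prod = a ∧
          (m.map w).sum ≤ (l.map w).sum := by
  constructor
  · intro h n l a hcl w hw
    exact short_of_approx (h n) l a hcl w hw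
  · intro h n ρ hρ
    rw [approx_iff hρ]
    intro l a hcl
    refine le_of_forall_pos_le_add fun η hη => ?_
    obtain ⟨ε, hε0, hεη⟩ : ∃ ε : ℝ, 0 < ε ∧ ((l.length : ℝ) + 1) * ε = η :=
      ⟨η / (l.length + 1), by positivity, by field_simp⟩
    obtain ⟨m, c, -, hmc, hca, hsum⟩ := h n l a hcl (fun x => ρ x 1 + ε) (fun x => by
      have := hρ.nonneg x 1
      linarith)
    have h1 : ρ a 1 ≤ (c.map fun x => ρ x 1).sum := by
      rw [← hca]
      exact hρ.len_prod c
    have h2 : (c.map fun x => ρ x 1).sum = (m.map fun x => ρ x 1).sum := by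
      clear hca hsum h1
      induction hmc with
      | nil => rfl
      | @cons b x m c hbx _ ih =>
        have h3 : ρ x 1 = ρ b 1 := by
          rcases hbx with hbx | hbx
          · exact hρ.len_isConj hbx
          · rw [hρ.len_isConj hbx, hρ.len_inv]
        simp only [List.map_cons, List.sum_cons, ih, h3]
    have h3 : ∀ k : List (FreeGroup (Fin n)), (k.map fun x => ρ x 1 + ε).sum =
        (k.map fun x => ρ x 1).sum + k.length * ε := by
      intro k
      induction k with
      | nil => simp
      | cons b k ih =>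
        simp only [List.map_cons, List.sum_cons, List.length_cons, ih]
        push_cast
        ring
    rw [h3 m, h3 l] at hsum
    have h4 : 0 ≤ (m.length : ℝ) * ε := by positivity
    linarith

end Pool.Agent.Results.MP_123441_al.Reformulation
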