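import Pool.Agent.Helper539_BiInv.Criterion

set_option autoImplicit false

/-!
# Question 1 for ultrametrics is equivalent to weak soficity of all groups
-/

namespace Pool.Agent.Results.MP_123441_al.Ultrametric

open Pool.Agent.Helper539_BiInv

/-- `Γ` is weakly sofic: for every finite `K ⊆ Γ` and `ε > 0` there are a finite group `F` with a
bi-invariant metric `d` and a map `φ : Γ → F` with `d (φ (g * h)) (φ g * φ h) ≤ ε` for `g, h ∈ K`
and `d (φ g) 1 ≥ 1` for `1 ≠ g ∈ K`. -/
def WeaklySofic (Γ : Type) [Group Γ] : Prop :=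
  ∀ (K : Finset Γ) (ε : ℝ), 0 < ε →
    ∃ (F : Type) (_ : Group F) (_ : Fintype F) (d : F → F → ℝ), IsBiInvMetric d ∧
      ∃ φ : Γ → F, (∀ g ∈ K, ∀ h ∈ K, d (φ (g * h)) (φ g * φ h) ≤ ε) ∧
        ∀ g ∈ K, g ≠ 1 → 1 ≤ d (φ g) 1

/-- The two-step metric of a homomorphism. -/
noncomputable def twoStep {H Γ : Type} (π : H → Γ) (δ : ℝ) (x y : H) : ℝ :=
  open Classical in if x = y then 0 else if π x = π y then δ else 2

theorem twoStep_isBiInv {H Γ : Type} [Group H] [Group Γ] (π : H →* Γ) {δ : ℝ} (h0 : 0 < δ)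
    (h2 : δ ≤ 2) : IsBiInvMetric (twoStep π δ) ∧
      ∀ x y z, twoStep π δ x z ≤ max (twoStep π δ x y) (twoStep π δ y z) := by
  classical
  have hu : ∀ x y z, twoStep π δ x z ≤ max (twoStep π δ x y) (twoStep π δ y z) := by
    intro x y z
    unfold twoStep
    by_cases h1 : x = z
    · rw [if_pos h1]
      refine le_max_of_le_left ?_
      split_ifs <;> linarith
    rw [if_neg h1]
    by_cases h3 : x = y
    · subst h3
      rw [if_neg h1]
      exact le_max_right _ _
    by_cases h4 : y = z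
    · subst h4
      rw [if_neg h1]
      exact le_max_left _ _
    rw [if_neg h3, if_neg h4]
    by_cases h5 : π x = π y
    · by_cases h6 : π y = π z
      · rw [if_pos (h5.trans h6), if_pos h5]
        exact le_max_left _ _
      · rw [if_neg h6]
        refine le_max_of_le_right ?_
        split_ifs <;> linarith
    · rw [if_neg h5]
      refine le_max_of_le_left ?_
      split_ifs <;> linarith
  have hnn : ∀ x y, 0 ≤ twoStep π δ x y := by
    intro x y
    unfold twoStep
    split_ifs <;> linarith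
  refine ⟨⟨?_, ?_, ?_, ?_, ?_⟩, hu⟩
  · intro x y
    unfold twoStep
    constructor
    · intro h
      by_contra hxy
      rw [if_neg hxy] at h
      split_ifs at h <;> linarith
    · intro h
      rw [if_pos h]
  · intro x y
    unfold twoStep
    simp only [eq_comm]
  · intro x y z
    exact (hu x y z).trans (max_le_add_of_nonneg (hnn _ _) (hnn _ _))
  · intro g x y
    unfold twoStep
    simp only [mul_right_inj, map_mul]
  · intro g x y
    unfold twoStep
    simp only [mul_left_inj, map_mul]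

/-- Approximability of all bi-invariant ultrametrics implies weak soficity of all groups. -/
theorem weaklySofic_of_approx
    (h : ∀ (n : ℕ) (ρ : FreeGroup (Fin n) → FreeGroup (Fin n) → ℝ), IsBiInvMetric ρ →
      (∀ x y z, ρ x z ≤ max (ρ x y) (ρ y z)) → FinitelyApproximable ρ)
    (Γ : Type) [Group Γ] : WeaklySofic Γ := by
  classical
  intro K ε hε
  obtain ⟨n, x, hx⟩ : ∃ (n : ℕ) (x : Fin n → Γ), ∀ g ∈ K, ∃ i, x i = g :=
    ⟨K.card, fun i => (K.equivFin.symm i).1, fun g hg => ⟨K.equivFin ⟨g, hg⟩, by simp⟩⟩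
  let π : FreeGroup (Fin n) →* Γ := FreeGroup.lift x
  have hK : ∀ g ∈ K, ∃ w, π w = g := by
    intro g hg
    obtain ⟨i, rfl⟩ := hx g hg
    exact ⟨FreeGroup.of i, by simp [π]⟩
  let σ : Γ → FreeGroup (Fin n) := fun g => if hg : ∃ w, π w = g then hg.choose else 1
  have hσ : ∀ g, (∃ w, π w = g) → π (σ g) = g := by
    intro g hg
    change π (if hg : ∃ w, π w = g then hg.choose else 1) = g
    rw [dif_pos hg]
    exact hg.choose_spec
  let δ : ℝ := min (ε / 2) 1
  have hδ0 : 0 < δ := by positivity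
  have hδ1 : δ ≤ 1 := min_le_right _ _
  have hδε : δ ≤ ε / 2 := min_le_left _ _
  obtain ⟨hρ, hu⟩ := twoStep_isBiInv π hδ0 (by linarith : δ ≤ 2)
  let A : Finset (FreeGroup (Fin n)) := insert 1 (K.image σ ∪ ((K ×ˢ K).image fun p => σ p.1 * σ p.2)
    ∪ ((K ×ˢ K).image fun p => σ (p.1 * p.2)))
  have hA1 : (1 : FreeGroup (Fin n)) ∈ A := Finset.mem_insert_self _ _
  have hAσ : ∀ g ∈ K, σ g ∈ A := fun g hg => Finset.mem_insert_of_mem
    (Finset.mem_union_left _ (Finset.mem_union_left _ (Finset.mem_image_of_mem _ hg)))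
  have hAm : ∀ g ∈ K, ∀ k ∈ K, σ g * σ k ∈ A := fun g hg k hk => Finset.mem_insert_of_mem
    (Finset.mem_union_left _ (Finset.mem_union_right _
      (Finset.mem_image.2 ⟨(g, k), Finset.mem_product.2 ⟨hg, hk⟩, rfl⟩)))
  have hAp : ∀ g ∈ K, ∀ k ∈ K, σ (g * k) ∈ A := fun g hg k hk => Finset.mem_insert_of_mem
    (Finset.mem_union_right _ (Finset.mem_image.2 ⟨(g, k), Finset.mem_product.2 ⟨hg, hk⟩, rfl⟩))
  obtain ⟨F, _, _, d, hd, ι, -, hmul, hiso⟩ := h n _ hρ hu A δ hδ0
  have hι1 : ι 1 = 1 := by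
    have := hmul 1 hA1 1 hA1 (by simpa using hA1)
    simpa using this
  refine ⟨F, inferInstance, inferInstance, d, hd, fun g => ι (σ g), ?_, ?_⟩
  · intro g hg k hk
    obtain ⟨w, hw⟩ := hK g hg
    obtain ⟨v, hv⟩ := hK k hk
    have h1 : π (σ (g * k)) = π (σ g * σ k) := by
      rw [map_mul, hσ g ⟨w, hw⟩, hσ k ⟨v, hv⟩, hσ (g * k) ⟨w * v, by rw [map_mul, hw, hv]⟩]
    have h2 := (abs_le.1 (hiso _ (hAp g hg k hk) _ (hAm g hg k hk))).2
    have h3 : twoStep π δ (σ (g * k)) (σ g * σ k) ≤ δ := by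
      unfold twoStep
      rw [if_pos h1]
      split_ifs
      · exact hδ0.le
      · exact le_rfl
    rw [← hmul _ (hAσ g hg) _ (hAσ k hk) (hAm g hg k hk)]
    linarith
  · intro g hg hg1
    have h1 : π (σ g) = g := hσ g (hK g hg)
    have h2 : twoStep π δ (σ g) 1 = 2 := by
      unfold twoStep
      have h3 : π (σ g) ≠ π 1 := by rw [h1, map_one]; exact hg1
      have h4 : σ g ≠ 1 := fun h => h3 (by rw [h])
      rw [if_neg h4, if_neg h3]
    have h3 := (abs_le.1 (hiso _ (hAσ g hg) _ hA1)).1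
    rw [hι1] at h3
    linarith

/-- A map of a quotient of the free group which is almost multiplicative on the image of a ball is
near a homomorphism of the free group there. -/
theorem near_lift {n : ℕ} {Γ F : Type} [Group Γ] [Group F] (π : FreeGroup (Fin n) →* Γ)
    {d : F → F → ℝ} (hd : IsBiInvMetric d) (φ : Γ → F) {R : ℕ} (hR : 1 ≤ R) {ε : ℝ}
    (hφ : ∀ a ∈ ball n R, ∀ b ∈ ball n R, d (φ (π a * π b)) (φ (π a) * φ (π b)) ≤ ε) :
    d (φ 1) 1 ≤ ε ∧ ∀ x ∈ ball n R,
      d (FreeGroup.lift (fun i => φ (π (FreeGroup.of i))) x) (φ (π x)) ≤ (3 * R + 1) * ε := by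
  have h0 : (1 : FreeGroup (Fin n)) ∈ ball n R := mem_ball.2 (by simp)
  have h1 : d (φ 1) 1 ≤ ε := by
    have := hφ 1 h0 1 h0
    rw [map_one, mul_one] at this
    have h2 := hd.left_inv (φ 1) 1 (φ 1)
    rw [mul_one] at h2
    rw [h2, hd.symm] at this
    exact this
  have hε : 0 ≤ ε := (hd.nonneg _ _).trans h1
  refine ⟨h1, ?_⟩
  set ψ := FreeGroup.lift (fun i => φ (π (FreeGroup.of i))) with hψ
  have hlet : ∀ p : Fin n × Bool, d (ψ (FreeGroup.mk [p])) (φ (π (FreeGroup.mk [p]))) ≤ 2 * ε := by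
    rintro ⟨i, b⟩
    have hof : FreeGroup.of i ∈ ball n R := mk_mem_ball (L := [(i, true)]) (by simpa using hR)
    cases b with
    | true =>
      change d (ψ (FreeGroup.of i)) (φ (π (FreeGroup.of i))) ≤ _
      rw [hψ, FreeGroup.lift_apply_of, hd.self]
      positivity
    | false =>
      have hinv : FreeGroup.mk [(i, false)] = (FreeGroup.of i)⁻¹ := by
        simp [FreeGroup.of, FreeGroup.inv_mk, FreeGroup.invRev]
      have hof' : FreeGroup.mk [(i, false)] ∈ ball n R := mk_mem_ball (by simpa using hR)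
      rw [hinv] at hof' ⊢
      have h2 := hφ _ hof _ hof'
      rw [← map_mul, mul_inv_cancel, map_one] at h2
      rw [map_inv, hψ, FreeGroup.lift_apply_of]
      have h3 := hd.left_inv (φ (π (FreeGroup.of i))) (φ (π (FreeGroup.of i)))⁻¹
        (φ (π (FreeGroup.of i)⁻¹))
      rw [mul_inv_cancel] at h3
      rw [← h3]
      have h4 := hd.triangle 1 (φ 1) (φ (π (FreeGroup.of i)) * φ (π (FreeGroup.of i)⁻¹))
      rw [hd.symm 1 (φ 1)] at h4
      linarith
  have key : ∀ L : List (Fin n × Bool), L.length ≤ R →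
      d (ψ (FreeGroup.mk L)) (φ (π (FreeGroup.mk L))) ≤ (3 * L.length + 1) * ε := by
    intro L
    induction L with
    | nil =>
      intro _
      change d (ψ 1) (φ (π 1)) ≤ _
      rw [map_one, map_one, hd.symm]
      simpa using h1
    | cons p L ih =>
      intro hL
      rw [List.length_cons] at hL
      have hmul : FreeGroup.mk (p :: L) = FreeGroup.mk [p] * FreeGroup.mk L := by
        rw [FreeGroup.mul_mk, List.singleton_append]
      have hp : FreeGroup.mk [p] ∈ ball n R := mk_mem_ball (by simpa using hR)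
      have hLb : FreeGroup.mk L ∈ ball n R := mk_mem_ball (by omega)
      have h2 := hφ _ hp _ hLb
      have h3 := hd.triangle (ψ (FreeGroup.mk [p]) * ψ (FreeGroup.mk L))
        (φ (π (FreeGroup.mk [p])) * φ (π (FreeGroup.mk L)))
        (φ (π (FreeGroup.mk [p]) * π (FreeGroup.mk L)))
      have h4 := hd.mul_mul (ψ (FreeGroup.mk [p])) (ψ (FreeGroup.mk L))
        (φ (π (FreeGroup.mk [p]))) (φ (π (FreeGroup.mk L)))
      rw [hd.symm] at h2
      rw [hmul, map_mul, map_mul, List.length_cons]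
      push_cast
      linarith [hlet p, ih (by omega)]
  intro x hx
  have hx' := mem_ball.1 hx
  have h2 := key x.toWord hx'
  rw [FreeGroup.mk_toWord] at h2
  have h3 : ((x.toWord.length : ℕ) : ℝ) ≤ R := by exact_mod_cast hx'
  nlinarith

/-- Weak soficity of all groups implies approximability of all bi-invariant ultrametrics. -/
theorem approx_of_weaklySofic (h : ∀ (Γ : Type) [Group Γ], WeaklySofic Γ) (n : ℕ)
    (ρ : FreeGroup (Fin n) → FreeGroup (Fin n) → ℝ) (hρ : IsBiInvMetric ρ)
    (hu : ∀ x y z, ρ x z ≤ max (ρ x y) (ρ y z)) : FinitelyApproximable ρ := by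
  classical
  rw [approx_iff hρ]
  intro l a hcl
  by_contra hlt
  push Not at hlt
  have hlen : ∀ b ∈ l, ρ b 1 < ρ a 1 := by
    intro b hb
    refine lt_of_le_of_lt ?_ hlt
    exact List.single_le_sum (by
      intro x hx
      obtain ⟨b, -, rfl⟩ := List.mem_map.1 hx
      exact hρ.nonneg b 1) _ (List.mem_map_of_mem (f := fun b => ρ b 1) hb)
  have hpos : 0 < ρ a 1 := by
    refine lt_of_le_of_lt ?_ hlt
    refine List.sum_nonneg ?_
    intro x hx
    obtain ⟨b, -, rfl⟩ := List.mem_map.1 hx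
    exact hρ.nonneg b 1
  -- the open ball of radius `ρ a 1`
  let N : Subgroup (FreeGroup (Fin n)) :=
    { carrier := {g | ρ g 1 < ρ a 1}
      one_mem' := by
        change ρ 1 1 < ρ a 1
        rw [hρ.self]; exact hpos
      mul_mem' := by
        intro x y hx hy
        change ρ (x * y) 1 < ρ a 1
        change ρ x 1 < ρ a 1 at hx
        change ρ y 1 < ρ a 1 at hy
        have h1 := hu (x * y) y 1
        have h2 := hρ.right_inv y x 1
        rw [one_mul] at h2
        rw [h2] at h1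
        exact lt_of_le_of_lt h1 (max_lt hx hy)
      inv_mem' := by
        intro x hx
        change ρ x⁻¹ 1 < ρ a 1
        rw [hρ.len_inv]; exact hx }
  haveI hN : N.Normal := ⟨fun x hx g => by
    change ρ (g * x * g⁻¹) 1 < ρ a 1
    rw [hρ.len_conj]; exact hx⟩
  let π : FreeGroup (Fin n) →* FreeGroup (Fin n) ⧸ N := QuotientGroup.mk' N
  obtain ⟨R, hR1, hRa, hRl⟩ : ∃ R : ℕ, 1 ≤ R ∧ a.norm ≤ R ∧ ∀ b ∈ l, b.norm ≤ R := by
    refine ⟨1 + a.norm + (l.map FreeGroup.norm).sum, by omega, by omega, fun b hb => ?_⟩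
    have := List.single_le_sum (by simp) _ (List.mem_map_of_mem (f := FreeGroup.norm) hb)
    omega
  obtain ⟨ε, hε0, hε⟩ : ∃ ε : ℝ, 0 < ε ∧ ((l.length : ℝ) + 1) * (3 * R + 2) * ε < 1 := by
    refine ⟨1 / (2 * (((l.length : ℝ) + 1) * (3 * R + 2))), by positivity, ?_⟩
    rw [mul_one_div, div_lt_one (by positivity)]
    have : 0 < ((l.length : ℝ) + 1) * (3 * R + 2) := by positivity
    linarith
  obtain ⟨F, _, _, d, hd, φ, hφ, hφ1⟩ := h (FreeGroup (Fin n) ⧸ N) ((ball n R).image π) ε hε0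
  obtain ⟨hone, hnear⟩ := near_lift π hd φ hR1 (fun x hx y hy =>
    hφ _ (Finset.mem_image_of_mem _ hx) _ (Finset.mem_image_of_mem _ hy))
  set ψ := FreeGroup.lift (fun i => φ (π (FreeGroup.of i))) with hψ
  obtain ⟨c, hc, hmem⟩ := hcl ψ.ker inferInstance inferInstance
  have hψa : ψ a = (c.map ψ).prod := by
    rw [MonoidHom.mem_ker, map_mul, map_inv, map_list_prod] at hmem
    exact inv_mul_eq_one.1 hmem
  have h2 : d (ψ a) 1 ≤ ((l.map ψ).map fun x => d x 1).sum := by
    rw [hψa, ← len_sum_forall₂ hd (forall₂_map_isConj ψ hc)]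
    exact hd.len_prod _
  have h3 : ∀ m : List (FreeGroup (Fin n)), (∀ b ∈ m, b ∈ l) →
      ((m.map ψ).map fun x => d x 1).sum ≤ m.length * ((3 * R + 2) * ε) := by
    intro m
    induction m with
    | nil => intro _; simp
    | cons b m ih =>
      intro hm
      have hb : b ∈ l := hm b List.mem_cons_self
      have h4 := hnear b (mem_ball.2 (hRl b hb))
      have h5 : π b = 1 := (QuotientGroup.eq_one_iff b).2 (hlen b hb)
      rw [h5] at h4
      have h6 := hd.triangle (ψ b) (φ 1) 1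
      have h7 := ih fun x hx => hm x (List.mem_cons_of_mem _ hx)
      simp only [List.map_cons, List.sum_cons, List.length_cons]
      push_cast
      linarith
  have h4 := h3 l fun _ h => h
  have h5 : π a ≠ 1 := by
    intro h6
    have h7 : a ∈ N := (QuotientGroup.eq_one_iff a).1 h6
    exact lt_irrefl _ (show ρ a 1 < ρ a 1 from h7)
  have h6 := hφ1 (π a) (Finset.mem_image_of_mem _ (mem_ball.2 hRa)) h5
  have h7 := hnear a (mem_ball.2 hRa)
  have h8 := hd.triangle (φ (π a)) (ψ a) 1
  rw [hd.symm (φ (π a)) (ψ a)] at h8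
  nlinarith

/-- **Question 1 for ultrametrics is equivalent to weak soficity of all groups.** Every
bi-invariant ultrametric on every free group of finite rank is finitely approximable (the
conclusion of the question) if and only if every group is weakly sofic. -/
theorem result :
    (∀ (n : ℕ) (ρ : FreeGroup (Fin n) → FreeGroup (Fin n) → ℝ), IsBiInvMetric ρ →
      (∀ x y z, ρ x z ≤ max (ρ x y) (ρ y z)) → FinitelyApproximable ρ) ↔
    ∀ (Γ : Type) [Group Γ], WeaklySofic Γ :=
  ⟨fun h Γ _ => weaklySofic_of_approx h Γ, fun h n ρ hρ hu => approx_of_weaklySofic h n ρ hρ hu⟩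

end Pool.Agent.Results.MP_123441_al.Ultrametric
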